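import Mathlib

/-!
# MP_739307_an : the condition `C(a, λ, E)` depends on the approximate identity `E`

In `c₀ = C₀(ℕ, ℂ)` take `a = δ₀`, `λ = 1`, `f_n = 1_{[0,n]}` and `e_n = f_n + δ₀/(n+1)`.
-/

namespace Pool.Agent.Results.MP_739307_an.Depends

open Filter Topology ZeroAtInfty

noncomputable section

/-- The net `e : J → A` is an approximate identity (no boundedness is required). -/
def IsApproxId {A J : Type} [NonUnitalNormedRing A] [Preorder J] (e : J → A) : Prop :=
  ∀ x : A, Tendsto (fun j => ‖e j * x - x‖) atTop (𝓝 0) ∧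
    Tendsto (fun j => ‖x * e j - x‖) atTop (𝓝 0)

/-- The condition `C(a, lam, E)`: there is a net `r`, indexed by the same set, such that
`(lam • e_j - a) * r_j` is an approximate identity. -/
def Cond {A J : Type} [NonUnitalNormedRing A] [NormedSpace ℂ A] [Preorder J]
    (a : A) (lam : ℂ) (e : J → A) : Prop :=
  ∃ r : J → A, IsApproxId (fun j => (lam • e j - a) * r j)

/-- The algebra has an identity element. -/
def HasUnit (A : Type) [NonUnitalNormedRing A] : Prop := ∃ u : A, ∀ x : A, u * x = x ∧ x * u = x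

/-- the algebra `c₀` -/
abbrev A0 : Type := C₀(ℕ, ℂ)

/-- an element of `c₀` from a function vanishing beyond `n` -/
def mk (n : ℕ) (f : ℕ → ℂ) : A0 where
  toFun := fun k => if k ≤ n then f k else 0
  continuous_toFun := continuous_of_discreteTopology
  zero_at_infty' := by
    rw [cocompact_eq_cofinite, Nat.cofinite_eq_atTop]
    apply tendsto_const_nhds.congr'
    filter_upwards [eventually_gt_atTop n] with k hk
    rw [if_neg (by omega)]

lemma mk_apply (n : ℕ) (f : ℕ → ℂ) (k : ℕ) : mk n f k = if k ≤ n then f k else 0 := rfl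

/-- the element `1_{[0,n]}` -/
def f1 (n : ℕ) : A0 := mk n (fun _ => 1)

/-- the element `δ₀` -/
def d0 : A0 := mk 0 (fun _ => 1)

/-- the second approximate identity -/
def e1 (n : ℕ) : A0 := f1 n + ((1 / ((n : ℝ) + 1) : ℝ) : ℂ) • d0

lemma norm_le_of (x : A0) (C : ℝ) (hC : 0 ≤ C) (h : ∀ k, ‖x k‖ ≤ C) : ‖x‖ ≤ C := by
  rw [← ZeroAtInftyContinuousMap.norm_toBCF_eq_norm]
  exact (BoundedContinuousFunction.norm_le hC).2 h

lemma tail_small (x : A0) (ε : ℝ) (hε : 0 < ε) : ∃ N, ∀ k ≥ N, ‖x k‖ < ε := by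
  have h := x.zero_at_infty'
  rw [cocompact_eq_cofinite, Nat.cofinite_eq_atTop] at h
  have h1 := (Metric.tendsto_atTop.1 h) ε hε
  obtain ⟨N, hN⟩ := h1
  refine ⟨N, fun k hk => ?_⟩
  have := hN k hk
  rwa [dist_zero_right] at this

lemma f1_tendsto (x : A0) : Tendsto (fun n => ‖f1 n * x - x‖) atTop (𝓝 0) := by
  rw [Metric.tendsto_atTop]
  intro ε hε
  obtain ⟨N, hN⟩ := tail_small x (ε / 2) (by positivity)
  refine ⟨N, fun n hn => ?_⟩
  rw [dist_zero_right, norm_norm]
  refine lt_of_le_of_lt (norm_le_of _ (ε / 2) (by positivity) ?_) (by linarith)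
  intro k
  have h1 : (f1 n * x - x) k = f1 n k * x k - x k := rfl
  rw [h1]
  unfold f1
  rw [mk_apply]
  split_ifs with hk
  · simp; positivity
  · have h2 := hN k (by omega)
    simp only [zero_mul, zero_sub, norm_neg]
    exact h2.le

lemma f1_approx : IsApproxId f1 := by
  intro x
  refine ⟨f1_tendsto x, ?_⟩
  have : (fun n => ‖x * f1 n - x‖) = fun n => ‖f1 n * x - x‖ := by
    funext n; rw [mul_comm]
  rw [this]
  exact f1_tendsto x

lemma e1_approx : IsApproxId e1 := by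
  have key : ∀ x : A0, Tendsto (fun n => ‖e1 n * x - x‖) atTop (𝓝 0) := by
    intro x
    have h1 : Tendsto (fun n : ℕ => ‖f1 n * x - x‖ + (1 / ((n : ℝ) + 1)) * ‖d0 * x‖) atTop
        (𝓝 (0 + 0 * ‖d0 * x‖)) :=
      (f1_tendsto x).add ((tendsto_one_div_add_atTop_nhds_zero_nat).mul_const _)
    simp only [zero_mul, add_zero] at h1
    refine squeeze_zero (fun _ => norm_nonneg _) (fun n => ?_) h1
    have h2 : e1 n * x - x = (f1 n * x - x) + ((1 / ((n : ℝ) + 1) : ℝ) : ℂ) • (d0 * x) := by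
      unfold e1
      rw [add_mul, smul_mul_assoc]
      abel
    rw [h2]
    refine (norm_add_le _ _).trans ?_
    gcongr
    rw [norm_smul, Complex.norm_real, Real.norm_eq_abs, abs_of_nonneg (by positivity)]
  intro x
  refine ⟨key x, ?_⟩
  have : (fun n => ‖x * e1 n - x‖) = fun n => ‖e1 n * x - x‖ := by
    funext n; rw [mul_comm]
  rw [this]
  exact key x

lemma cond_e1 : Cond d0 1 e1 := by
  refine ⟨fun n => mk n (fun k => if k = 0 then ((n : ℝ) + 1 : ℝ) else 1), ?_⟩
  have h : (fun n : ℕ => ((1 : ℂ) • e1 n - d0) *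
      mk n (fun k => if k = 0 then (((n : ℝ) + 1 : ℝ) : ℂ) else 1)) = f1 := by
    funext n
    ext k
    have h1 : (((1 : ℂ) • e1 n - d0) *
      mk n (fun k => if k = 0 then (((n : ℝ) + 1 : ℝ) : ℂ) else 1)) k =
      (1 * (f1 n k + ((1 / ((n : ℝ) + 1) : ℝ) : ℂ) * d0 k) - d0 k) *
        mk n (fun k => if k = 0 then (((n : ℝ) + 1 : ℝ) : ℂ) else 1) k := rfl
    rw [h1]
    unfold f1 d0
    simp only [mk_apply]
    by_cases hk : k = 0
    · subst hk
      simp only [Nat.zero_le, if_true]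
      have : ((n : ℂ) + 1) ≠ 0 := by exact_mod_cast Nat.succ_ne_zero n
      push_cast
      field_simp
      ring
    · have hk0 : ¬ k ≤ 0 := by omega
      simp only [hk0, if_false, mul_zero, add_zero, sub_zero, hk]
      split_ifs <;> simp
  rw [h]
  exact f1_approx

lemma not_cond_f1 : ¬ Cond d0 1 f1 := by
  rintro ⟨r, hr⟩
  have h := (hr d0).1
  have h1 : ∀ n : ℕ, 1 ≤ ‖(((1 : ℂ) • f1 n - d0) * r n) * d0 - d0‖ := by
    intro n
    have h2 : ((((1 : ℂ) • f1 n - d0) * r n) * d0 - d0) 0 = -1 := by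
      have h3 : ((((1 : ℂ) • f1 n - d0) * r n) * d0 - d0) 0 =
        ((1 * f1 n 0 - d0 0) * r n 0) * d0 0 - d0 0 := rfl
      rw [h3]
      unfold f1 d0
      simp [mk_apply]
    have h4 : ‖((((1 : ℂ) • f1 n - d0) * r n) * d0 - d0) 0‖ ≤
        ‖(((1 : ℂ) • f1 n - d0) * r n) * d0 - d0‖ := by
      rw [← ZeroAtInftyContinuousMap.norm_toBCF_eq_norm]
      exact BoundedContinuousFunction.norm_coe_le_norm
        (ZeroAtInftyContinuousMap.toBCF ((((1 : ℂ) • f1 n - d0) * r n) * d0 - d0)) 0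
    rw [h2] at h4
    simpa using h4
  have h5 := ge_of_tendsto' h h1
  linarith

lemma not_hasUnit : ¬ HasUnit A0 := by
  rintro ⟨u, hu⟩
  obtain ⟨N, hN⟩ := tail_small u 1 one_pos
  have h1 := hN N le_rfl
  have h2 := (hu (f1 N)).1
  have h3 : (u * f1 N) N = u N * f1 N N := rfl
  rw [h2] at h3
  unfold f1 at h3
  rw [mk_apply, if_pos le_rfl, mul_one] at h3
  rw [← h3] at h1
  simp at h1

lemma norm_bounds (n : ℕ) : ‖e1 n‖ ≤ 2 ∧ ‖f1 n‖ ≤ 2 := by
  have h1 : ‖f1 n‖ ≤ 1 := by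
    refine norm_le_of _ 1 zero_le_one (fun k => ?_)
    unfold f1
    rw [mk_apply]
    split_ifs <;> simp
  have h2 : ‖d0‖ ≤ 1 := by
    refine norm_le_of _ 1 zero_le_one (fun k => ?_)
    unfold d0
    rw [mk_apply]
    split_ifs <;> simp
  refine ⟨?_, h1.trans (by norm_num)⟩
  unfold e1
  refine (norm_add_le _ _).trans ?_
  rw [norm_smul, Complex.norm_real, Real.norm_eq_abs, abs_of_nonneg (by positivity)]
  have h3 : 1 / ((n : ℝ) + 1) ≤ 1 := by
    rw [div_le_one (by positivity)]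
    have : (0 : ℝ) ≤ n := Nat.cast_nonneg n
    linarith
  have h4 : 1 / ((n : ℝ) + 1) * ‖d0‖ ≤ 1 * 1 :=
    mul_le_mul h3 h2 (norm_nonneg _) zero_le_one
  linarith

/-- There are a commutative Banach algebra `A` without identity element, `a ∈ A`, `lam ∈ ℂ` and
two bounded approximate identities `E`, `F` of `A` (sequences) such that `C(a, lam, E)` holds and
`C(a, lam, F)` fails. -/
theorem result :
    ∃ (A : Type) (_ : NonUnitalNormedRing A) (_ : NormedSpace ℂ A) (_ : IsScalarTower ℂ A A)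
      (_ : SMulCommClass ℂ A A), CompleteSpace A ∧ (∀ x y : A, x * y = y * x) ∧ ¬ HasUnit A ∧
      ∃ (a : A) (lam : ℂ) (E F : ℕ → A), IsApproxId E ∧ IsApproxId F ∧
        (∃ M : ℝ, ∀ n, ‖E n‖ ≤ M ∧ ‖F n‖ ≤ M) ∧ Cond a lam E ∧ ¬ Cond a lam F :=
  ⟨A0, inferInstance, inferInstance, inferInstance, inferInstance, inferInstance, mul_comm,
    not_hasUnit, d0, 1, e1, f1, e1_approx, f1_approx, ⟨2, norm_bounds⟩, cond_e1, not_cond_f1⟩

end

end Pool.Agent.Results.MP_739307_an.Depends
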